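import Pool.Agent.Lib.MP_1a14d4_he.Main

/-!
# Honest equivalence inside the complete m-degree of RE: an equivalent statement about FP

FP is the class of the functions on words computable in polynomial time. The following statements are
equivalent.
1. The complete m-degree of RE contains two sets that are not m-honest-equivalent (Q1: yes).
2. The complete m-degree of RE contains two sets that are not reducible to each other by one-to-one
   length-increasing functions of FP.
3. Every countable partial order embeds into the m-honest degrees inside the complete m-degree of RE.
4. There is a one-to-one `f` in FP whose range contains the range of no one-to-one honest `h` in FP.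
5. The same as 4 for some `f` with `|x| < 2 ^ |f x|`.

Some steps of the proof. `F` is an enumeration of FP, `st i w = 1 ^ i 0 w`.
* From not 1 to not 4: the set `C` of all words `0 z` with `z` in the universal set, and all words
  `1 st j z` such that `F j (1 st j z') ≠ F j (1 st j z)` for all `z'` before `z`, is RE-complete, and so
  is `f(C)`. An honest reduction `F j` of `C` to `f(C)` is one-to-one on the column `j`; then this column
  is contained in `C`, and `z ↦ F j (1 st j z)` has its range in the range of `f`.
* From not 5 to not 2: the diagonal set is defined such that a reduction `F i` is one-to-one on the
  column `i`. On this column the word `w` is decoded by the first candidate `k` not yet refuted at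
  stage `|w|`: `st i w` belongs to the diagonal set if the value at `st i w` is `F k z` for an element
  `z` of the universal set. By not 5 there is a limit `k`, and `F k` is an honest one-to-one
  reduction of the universal set, with finitely many exceptions.
* From 5 to 3: the sets consist of the words `1 f(x)`, `x ∈ K`, and of tagged words `x ∈ K` with
  length in sparse windows, which are found by a search for violations.
-/

set_option autoImplicit false

namespace Pool.Agent.Results.MP_1a14d4_lc.HonestInjections

open MHE

theorem result :
    [TwoSets RE, TwoLI RE, AllOrders RE,
      ∃ f, FP f ∧ Function.Injective f ∧ ¬ HasHonest f,
      ∃ f, FP f ∧ Function.Injective f ∧ (∀ x : W, x.length < 2 ^ (f x).length) ∧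
        ¬ HasHonest f].TFAE :=
  main

end Pool.Agent.Results.MP_1a14d4_lc.HonestInjections
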