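import Pool.Agent.Lib.MP_1a14d4_he.MainD

/-!
# Honest equivalence inside the complete m-degree of NEXP: a dichotomy

FP is the class of the functions on words computable in polynomial time. The following statements are
equivalent.
1. The complete m-degree of NEXP contains two sets that are not m-honest-equivalent (Q2: yes).
2. The complete m-degree of NEXP contains two sets that are not reducible to each other by one-to-one
   length-increasing functions of FP.
3. Every countable partial order embeds into the m-honest degrees inside the complete m-degree of
   NEXP.

So the complete m-degree of NEXP is one degree for one-to-one length-increasing reductions, or it
contains all countable partial orders of honest degrees.

Some steps of the proof.
* From not 1 to not 2: the diagonal set in NEXP which makes each reduction `F i` one-to-one on the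
  column `i` is reducible to a complete set `A` by an honest function, and this function is then an
  honest injection on its column.
* From 1 to 3: let `A` be a complete set to which the universal set is not honestly reducible. There
  are sparse windows of lengths, each with a violation of a requirement, and they can be found in
  polynomial time by a slow search. For a set `P` of numbers the set `A_P` consists of the words `1 y`
  with `y ∈ A`, and of tagged words with tags in `P` and lengths in the windows (if the complement of
  `A` contains the range of an honest function of FP), or of the other words (if not).
-/

set_option autoImplicit false

namespace Pool.Agent.Results.MP_1a14d4_lc.NexpDichotomy

open MHE

theorem result : [TwoSets NEXP, TwoLI NEXP, AllOrders NEXP].TFAE :=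
  main_nexp

end Pool.Agent.Results.MP_1a14d4_lc.NexpDichotomy
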