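import Pool.Agent.Lib.MP_1a14d4_he.MainN

/-!
# Honest equivalence inside the complete m-degrees: from NEXP to RE

If the complete m-degree of NEXP contains two sets that are not reducible to each other by one-to-one
length-increasing functions of FP (for instance two sets that are not m-honest-equivalent), then the
complete m-degree of RE contains two sets that are not m-honest-equivalent. So the answer yes to Q2
implies the answer yes to Q1.

Some steps of the proof.
* If any two RE-complete sets are m-honest-equivalent, then the range of each one-to-one `f` in FP
  contains the range of a one-to-one honest `h` in FP (`hasHonest_of_not_twoSets`).
* For an NEXP-complete set `A` there is a diagonal set in NEXP such that a reduction `F i` of it to `A`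
  is one-to-one on the column `i`: the least word `w₀` of a class with the same value belongs to it
  if there is another word of the class of length at most `2 ^ |w₀|`; the longer words of the class
  are handled by negation, with a deterministic search.
* On this column the words are decoded by the current candidate for a honest injection into the
  range of the reduction; the sequence of the candidates is slowed down, so that it can be
  computed in polynomial time.
-/

set_option autoImplicit false

namespace Pool.Agent.Results.MP_1a14d4_lc.NexpToRE

open MHE

theorem result : (TwoLI NEXP → TwoSets RE) ∧ (TwoSets NEXP → TwoSets RE) :=
  ⟨twoSets_of_twoLI_NEXP, fun h => twoSets_of_twoLI_NEXP (twoLI_of_twoSets h)⟩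

end Pool.Agent.Results.MP_1a14d4_lc.NexpToRE
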