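import Pool.Agent.Lib.MP_1a14d4_lc.Main

/-!
# Honest equivalence inside the complete m-degrees of RE and NEXP, relative to an oracle

There is an oracle relative to which the complete m-degree of RE, and also the complete m-degree of
NEXP, contains infinitely many sets which are pairwise incomparable under honest polynomial-time
reductions. So relative to this oracle Q1 and Q2 both have the answer yes.

Some steps of the proof.
* `tag k i z` is the word of the oracle which holds the bit number `i` of the block of `z` in the copy
  `k`. The coding function `cf O k` reads the block of `z` (`|z| + 1` queries): if its first bit is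
  zero (`z` is alive) the value is `1z`, and otherwise (`z` is dead) the value is `0c`, where `c` is
  the code of `z`, a word of logarithmic length.
* `A k` is the image of the universal set of RE under `cf O k`, which is one-to-one. For NEXP the
  word `0c` belongs to `A k` if and only if the oracle contains a witness word for `c`, and the oracle
  is made such that this is the case if and only if the word `z` with the code `c` belongs to the
  universal set of NEXP; these witness words are too long for the queries of the algorithms.
* In the stage for an algorithm `h` and two copies `j ≠ k`, the algorithm runs on the input `1x`, the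
  image under `cf O j` of an element `x` of the universal set; all words `z` of medium length about
  which it asks in the copy `k`, and the word `z` if the output is `1z`, are made dead. So the output
  is short or not in `A k`, although `1x` belongs to `A j`.
-/

set_option autoImplicit false

namespace Pool.Agent.Results.MP_1a14d4_lc.OracleAntichain

open MHon

theorem result : ∃ O : Set W,
    (∃ A : ℕ → Set W, (∀ i, CompleteM O (REO O) (A i)) ∧ ∀ i j, i ≠ j →
      (∀ q : Polynomial ℕ, ¬ RedHonest O (fun m => q.eval m) (A i) (A j)) ∧
      ∀ r : ℕ → ℕ, Subexp r → ¬ RedHonest O r (A i) (A j)) ∧
    (∃ A : ℕ → Set W, (∀ i, CompleteM O (NEXPO O) (A i)) ∧ ∀ i j, i ≠ j →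
      (∀ q : Polynomial ℕ, ¬ RedHonest O (fun m => q.eval m) (A i) (A j)) ∧
      ∀ r : ℕ → ℕ, Subexp r → ¬ RedHonest O r (A i) (A j)) := by
  obtain ⟨O, ⟨A, hA, hA'⟩, B, hB, hB'⟩ := main
  exact ⟨O, ⟨A, hA, fun i j hij => ⟨fun q => hA' i j hij _ (subexp_poly q), hA' i j hij⟩⟩,
    ⟨B, hB, fun i j hij => ⟨fun q => hB' i j hij _ (subexp_poly q), hB' i j hij⟩⟩⟩

end Pool.Agent.Results.MP_1a14d4_lc.OracleAntichain
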